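import Pool.Agent.Helper14.CV.StA

/-!
# Project CV (MP_3c9520_nt): module A3, integrated invariance
-/

set_option autoImplicit false

open UpperHalfPlane CongruenceSubgroup
open scoped MatrixGroups

namespace Pool.Agent.Helper72.CV

open Pool.Agent.Helper14.CV

private theorem cst (D : ℂ → ℂ) (h : ∀ z : ℂ, 0 < z.im → HasDerivAt D 0 z) :
    ∃ k : ℂ, ∀ z : ℂ, 0 < z.im → D z = k := by
  have hs : IsOpen {z : ℂ | 0 < z.im} := isOpen_lt continuous_const Complex.continuous_im
  have hp : IsPreconnected {z : ℂ | 0 < z.im} := (convex_halfSpace_im_gt 0).isPreconnected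
  obtain ⟨k, hk⟩ := hs.exists_is_const_of_deriv_eq_zero hp
    (fun z hz => (h z hz).differentiableAt.differentiableWithinAt) (fun z hz => (h z hz).deriv)
  exact ⟨k, fun z hz => hk z hz⟩

private theorem mob_deriv (a b c d z : ℂ) (h1 : a * d - b * c = 1) (h : c * z + d ≠ 0) :
    HasDerivAt (fun z : ℂ => (a * z + b) / (c * z + d)) (1 / (c * z + d) ^ 2) z := by
  have e1 : HasDerivAt (fun z : ℂ => a * z + b) a z := by
    simpa using ((hasDerivAt_id z).const_mul a).add_const b
  have e2 : HasDerivAt (fun z : ℂ => c * z + d) c z := by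
    simpa using ((hasDerivAt_id z).const_mul c).add_const d
  refine (e1.fun_div e2 h).congr_deriv ?_
  congr 1
  linear_combination h1

private theorem comp_der (F g : ℂ → ℂ) (F' g' z : ℂ) (e2 : HasDerivAt F F' (g z))
    (e1 : HasDerivAt g g' z) : HasDerivAt (fun z => F (g z)) (F' * g') z := e2.comp z e1

private theorem inv_fz {N : ℕ} (f : CuspForm (G0 N) 2) (a b c d : ℤ) (h1 : a * d - b * c = 1)
    (hc : (N : ℤ) ∣ c) (z : ℂ) (hz : 0 < z.im) :
    (c * z + d : ℂ) ≠ 0 ∧ 0 < ((a * z + b) / (c * z + d) : ℂ).im ∧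
      fz f ((a * z + b) / (c * z + d)) = (c * z + d) ^ 2 * fz f z := by
  let γ : SL(2, ℤ) := ⟨!![a, b; c, d], by rw [Matrix.det_fin_two_of]; exact h1⟩
  let τ : ℍ := ⟨z, hz⟩
  have hγ : γ ∈ Gamma0 N := by
    rw [Gamma0_mem]
    exact (ZMod.intCast_zmod_eq_zero_iff_dvd _ _).2 hc
  have h2 := SlashInvariantForm.slash_action_eqn_SL'' f hγ τ
  have h3 : ((γ • τ : ℍ) : ℂ) = (a * z + b) / (c * z + d) := by
    rw [coe_specialLinearGroup_apply]
    simp [γ, τ]
  have h4 : denom γ τ = c * z + d := by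
    simp [denom, γ, τ]
  have h5 : (c * z + d : ℂ) ≠ 0 := by
    rw [← h4]
    exact denom_ne_zero _ _
  refine ⟨h5, ?_, ?_⟩
  · rw [← h3]
    exact (γ • τ).im_pos
  · unfold fz
    rw [← h3, ofComplex_apply, ofComplex_apply_of_im_pos hz, h2, h4]
    norm_cast

theorem hA3 (h1 : StA1) : StA3 := by
  intro N hN f a b c d hdet hc
  have key := cst (fun z => Fp f ((a * z + b) / (c * z + d)) - Fp f z) (by
    intro z hz
    obtain ⟨k1, k2, k3⟩ := inv_fz f a b c d hdet hc z hz
    have e1 := mob_deriv a b c d z (by exact_mod_cast hdet) k1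
    have e2 := (h1 N hN f _ k2).2.2
    have e4 : HasDerivAt (fun z => Fp f ((a * z + b) / (c * z + d)) - Fp f z) _ z :=
      (comp_der (Fp f) (fun z => (a * z + b) / (c * z + d)) _ _ z e2 e1).fun_sub (h1 N hN f z hz).2.2
    refine e4.congr_deriv ?_
    rw [k3]
    field_simp
    ring)
  obtain ⟨k, hk⟩ := key
  exact ⟨k, fun z hz => by linear_combination hk z hz⟩

theorem hA3W (h1 : StA1) : StA3W := by
  intro N hN f hf
  have hN0 : (N : ℂ) ≠ 0 := by exact_mod_cast hN.out
  have hNp : 0 < (N : ℝ) := by exact_mod_cast Nat.pos_of_ne_zero hN.out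
  have key := cst (fun z => Fp f (-1 / (N * z)) + Fp f z) (by
    intro z hz
    have z0 : z ≠ 0 := by
      rintro rfl
      simp at hz
    have k2 : 0 < (-1 / (N * z) : ℂ).im := by
      have e0 : 0 < ((N : ℂ) * z).im := by
        have : ((N : ℂ) * z).im = N * z.im := by
          have h := Complex.im_ofReal_mul (N : ℝ) z
          push_cast at h
          exact h
        rw [this]
        positivity
      have e := im_inv_neg_coe_pos ⟨(N : ℂ) * z, e0⟩
      have e' : (-1 / (N * z) : ℂ) = (-((N : ℂ) * z))⁻¹ := by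
        rw [inv_neg, neg_div, one_div]
      rw [e']
      exact e
    have e1 : HasDerivAt (fun z : ℂ => -1 / (N * z)) (1 / (N * z ^ 2)) z := by
      have e0 : HasDerivAt (fun z : ℂ => (N : ℂ) * z) N z := by
        simpa using (hasDerivAt_id z).const_mul (N : ℂ)
      have e := (hasDerivAt_const z (-1 : ℂ)).fun_div e0 (mul_ne_zero hN0 z0)
      refine e.congr_deriv ?_
      field_simp
      ring
    have e2 := (h1 N hN f _ k2).2.2
    have e4 : HasDerivAt (fun z => Fp f (-1 / (N * z)) + Fp f z) _ z :=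
      (comp_der (Fp f) (fun z => -1 / (N * z)) _ _ z e2 e1).fun_add (h1 N hN f z hz).2.2
    refine e4.congr_deriv ?_
    rw [hf z hz]
    field_simp
    ring)
  obtain ⟨k, hk⟩ := key
  exact ⟨k, fun z hz => by linear_combination hk z hz⟩

theorem hA3T (h1 : StA1) (h1b : StA1b) : StA3T := by
  intro N hN f hf
  have key := cst (fun z => Fp f (z + 1 / 2) + Fp f z) (by
    intro z hz
    have k2 : 0 < (z + 1 / 2 : ℂ).im := by
      have : (z + 1 / 2 : ℂ).im = z.im := by simp
      rw [this]
      exact hz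
    have e1 : HasDerivAt (fun z : ℂ => z + 1 / 2) 1 z := (hasDerivAt_id z).add_const _
    have e2 := (h1 N hN f _ k2).2.2
    have e4 : HasDerivAt (fun z => Fp f (z + 1 / 2) + Fp f z) _ z :=
      (comp_der (Fp f) (fun z => z + 1 / 2) _ _ z e2 e1).fun_add (h1 N hN f z hz).2.2
    refine e4.congr_deriv ?_
    rw [hf z hz]
    ring)
  obtain ⟨k, hk⟩ := key
  obtain ⟨C, hC⟩ := h1b N hN f
  -- the constant is `0`
  have hk0 : k = 0 := by
    by_contra hne
    have hpos : 0 < ‖k‖ := norm_pos_iff.2 hne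
    have hlim : Filter.Tendsto (fun y : ℝ => 2 * C * Real.exp (-2 * Real.pi * y)) Filter.atTop
        (nhds (2 * C * 0)) := by
      refine Filter.Tendsto.const_mul _ ?_
      refine Real.tendsto_exp_atBot.comp ?_
      have h2 : (-2 * Real.pi) < 0 := by
        have := Real.pi_pos
        linarith
      exact Filter.Tendsto.const_mul_atTop_of_neg h2 Filter.tendsto_id
    rw [mul_zero] at hlim
    obtain ⟨y, hy1, hy2⟩ := ((hlim.eventually_lt_const hpos).and (Filter.eventually_ge_atTop 1)).exists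
    have hz : 0 < ((y : ℂ) * Complex.I).im := by
      simp
      linarith
    have i1 : ((y : ℂ) * Complex.I).im = y := by simp
    have i2 : ((y : ℂ) * Complex.I + 1 / 2).im = y := by simp
    have b1 := hC ((y : ℂ) * Complex.I) (by rw [i1]; exact hy2)
    have b2 := hC ((y : ℂ) * Complex.I + 1 / 2) (by rw [i2]; exact hy2)
    rw [i1] at b1
    rw [i2] at b2
    have b3 : ‖k‖ ≤ ‖Fp f ((y : ℂ) * Complex.I + 1 / 2)‖ + ‖Fp f ((y : ℂ) * Complex.I)‖ := by
      rw [← hk _ hz]
      exact norm_add_le _ _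
    linarith
  intro z hz
  have := hk z hz
  rw [hk0] at this
  linear_combination this

end Pool.Agent.Helper72.CV
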