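import Pool.Agent.Helper14.CV.StD

/-!
# Project CV, module LOWA: lowering properties of the operators
-/

set_option autoImplicit false

namespace Pool.Agent.Helper72.CV

open Pool.Agent.Helper14.CV

namespace LowA

/-- Substitution in the second variable. -/
private def Vy {q q' : ℕ} (f : ZMod q' → ZMod q') : Module.End (ZMod 2) (Fn q q') where
  toFun F x y := F x (f y)
  map_add' _ _ := rfl
  map_smul' _ _ := rfl

/-- Substitution in the first variable. -/
private def Vx {q q' : ℕ} (f : ZMod q → ZMod q) : Module.End (ZMod 2) (Fn q q') where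
  toFun F x y := F (f x) y
  map_add' _ _ := rfl
  map_smul' _ _ := rfl

/-- Compatible with all congruences modulo `2^i`. -/
private def Lip {q : ℕ} (t : ZMod q → ZMod q) : Prop :=
  ∀ (i : ℕ) (y y' : ZMod q), (2 : ZMod q) ^ i ∣ y - y' → (2 : ZMod q) ^ i ∣ t y - t y'

private theorem Lip.const {q : ℕ} (c : ZMod q) : Lip (fun _ : ZMod q => c) := by
  intro i y y' _
  rw [sub_self]
  exact dvd_zero _

private theorem Lip.idm {q : ℕ} : Lip (fun y : ZMod q => y) := fun _ _ _ h => h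

private theorem Lip.add {q : ℕ} {t u : ZMod q → ZMod q} (ht : Lip t) (hu : Lip u) :
    Lip (fun y => t y + u y) := by
  intro i y y' h
  have e : t y + u y - (t y' + u y') = (t y - t y') + (u y - u y') := by ring
  rw [e]
  exact dvd_add (ht i y y' h) (hu i y y' h)

private theorem Lip.mul {q : ℕ} {t u : ZMod q → ZMod q} (ht : Lip t) (hu : Lip u) :
    Lip (fun y => t y * u y) := by
  intro i y y' h
  have e : t y * u y - t y' * u y' = (t y - t y') * u y + t y' * (u y - u y') := by ring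
  rw [e]
  exact dvd_add ((ht i y y' h).mul_right _) ((hu i y y' h).mul_left _)

private theorem Lip.inv {q : ℕ} {t : ZMod q → ZMod q} (ht : Lip t) (h1 : ∀ y, t y * (t y)⁻¹ = 1) :
    Lip (fun y => (t y)⁻¹) := by
  intro i y y' h
  have e : (t y)⁻¹ - (t y')⁻¹ = (t y - t y') * (-((t y)⁻¹ * (t y')⁻¹)) := by
    linear_combination (-(t y)⁻¹) * (h1 y') + (t y')⁻¹ * (h1 y)
  rw [e]
  exact (ht i y y' h).mul_right _

private theorem dbl {q q' : ℕ} (O : Module.End (ZMod 2) (Fn q q')) : O + O = 0 := by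
  refine LinearMap.ext fun F => ?_
  funext x y
  exact CharTwo.add_self_eq_zero _

/-- `1 + 2 c` is a unit. -/
private theorem inv1 (s : ℕ) (c : ZMod (2 ^ s)) : (1 + 2 * c) * (1 + 2 * c)⁻¹ = 1 := by
  have h : (2 : ZMod (2 ^ s)) ^ s = 0 := by
    have h1 := ZMod.natCast_self (2 ^ s)
    rwa [Nat.cast_pow, Nat.cast_ofNat] at h1
  have hn : IsNilpotent (2 * c : ZMod (2 ^ s)) := ⟨s, by rw [mul_pow, h, zero_mul]⟩
  exact ZMod.mul_inv_of_unit _ hn.isUnit_one_add

private theorem inv2 (s : ℕ) (v c : ZMod (2 ^ s)) (h : v = 1 + 2 * c) : v * v⁻¹ = 1 := by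
  rw [h]
  exact inv1 s c

private theorem frac {R : Type} [CommRing R] {p p' v v' a b : R} (e1 : v * a = 1) (e2 : v' * b = 1)
    (e3 : p * v' = p' * v) : p * a = p' * b := by
  linear_combination (-(p * a)) * e2 + a * b * e3 + p' * b * e1

section main

variable {r s : ℕ}

/-- abbreviation for the operators -/
private abbrev En (r s : ℕ) : Type := Module.End (ZMod 2) (Fn (2 ^ r) (2 ^ s))

private theorem lowY (hSub : StSub) (k : ℕ) (hk : 1 ≤ k) (f t : ZMod (2 ^ s) → ZMod (2 ^ s))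
    (ht : Lip t) (hf : ∀ y, f y = y + 2 ^ k * t y) : Low (Vy f + 1 : En r s) (2 ^ k - 1) := by
  intro d F hF
  have h := (((hSub r s k hk).1 t ht d F hF)).1
  have e : (Vy f + 1 : En r s) F = fun x y => F x (y + 2 ^ k * t y) + F x y := by
    funext x y
    change F x (f y) + F x y = _
    rw [hf y]
  rw [e]
  exact h

private theorem lowX (hSub : StSub) (k : ℕ) (hk : 1 ≤ k) (f t : ZMod (2 ^ r) → ZMod (2 ^ r))
    (ht : Lip t) (hf : ∀ y, f y = y + 2 ^ k * t y) : Low (Vx f + 1 : En r s) (2 ^ k - 1) := by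
  intro d F hF
  have h := (((hSub r s k hk).2 t ht d F hF)).1
  have e : (Vx f + 1 : En r s) F = fun x y => F (x + 2 ^ k * t x) y + F x y := by
    funext x y
    change F (f x) y + F x y = _
    rw [hf x]
  rw [e]
  exact h

private theorem lowY4 (hSub : StSub) (f t : ZMod (2 ^ s) → ZMod (2 ^ s))
    (ht : Lip t) (hf : ∀ y, f y = y + 4 * t y) (ho : ∀ y, (2 : ZMod (2 ^ s)) ∣ t y - 1) :
    Low (Vy f + 1 : En r s) 4 := by
  intro d F hF
  have h := (((hSub r s 2 (by norm_num)).1 t ht d F hF)).2 rfl ho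
  have e : (Vy f + 1 : En r s) F = fun x y => F x (y + 4 * t y) + F x y := by
    funext x y
    change F x (f y) + F x y = _
    rw [hf y]
  rw [e]
  exact h

private theorem lowX4 (hSub : StSub) (f t : ZMod (2 ^ r) → ZMod (2 ^ r))
    (ht : Lip t) (hf : ∀ y, f y = y + 4 * t y) (ho : ∀ y, (2 : ZMod (2 ^ r)) ∣ t y - 1) :
    Low (Vx f + 1 : En r s) 4 := by
  intro d F hF
  have h := (((hSub r s 2 (by norm_num)).2 t ht d F hF)).2 rfl ho
  have e : (Vx f + 1 : En r s) F = fun x y => F (x + 4 * t x) y + F x y := by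
    funext x y
    change F (f x) y + F x y = _
    rw [hf x]
  rw [e]
  exact h

/-- The closure rules of `Low`. -/
private structure Rules (r s : ℕ) : Prop where
  mul : ∀ (O O' : En r s) (k k' : ℤ), Low O k → Low O' k' → Low (O * O') (k + k')
  add : ∀ (O O' : En r s) (k : ℤ), Low O k → Low O' k → Low (O + O') k
  le : ∀ (O : En r s) (k k' : ℤ), k' ≤ k → Low O k → Low O k'
  one : Low (1 : En r s) 0
  x1 : Low (dx : En r s) 1
  y1 : Low (dy : En r s) 1

private theorem rules (h : StLow0) (r s : ℕ) : Rules r s :=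
  ⟨(h r s).1, (h r s).2.1, (h r s).2.2.1, (h r s).2.2.2.2.1, (h r s).2.2.2.2.2.1,
    (h r s).2.2.2.2.2.2.1⟩

private theorem Rules.zero (R : Rules r s) {O : En r s} {k : ℤ} (hk : 0 ≤ k) (h : Low (O + 1) k) :
    Low O 0 := by
  have h1 := R.add _ _ _ (R.le _ _ 0 hk h) R.one
  have e : O + 1 + 1 = O := by rw [add_assoc, dbl, add_zero]
  rwa [e] at h1

/-- `O O' + 1` if `O + 1` and `O' + 1` lower by `k`. -/
private theorem Rules.two (R : Rules r s) {O O' : En r s} {k : ℤ} (hk : 0 ≤ k) (h : Low (O + 1) k)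
    (h' : Low (O' + 1) k) : Low (O * O' + 1) k := by
  have h0 := R.mul _ _ _ _ (R.zero hk h) h'
  rw [zero_add] at h0
  have h1 := R.add _ _ _ h0 h
  have e : O * (O' + 1) + (O + 1) = O * O' + 1 := by
    rw [mul_add, mul_one, add_assoc, ← add_assoc O O 1, dbl, zero_add]
  rwa [e] at h1

/-- Shifts in the first variable. -/
private theorem shx (R : Rules r s) (u : ZMod (2 ^ r)) :
    Low (Vx (fun x => x + u) + 1 : En r s) 1 := by
  have key : ∀ n : ℕ, Low (Vx (fun x => x + (n : ZMod (2 ^ r))) + 1 : En r s) 1 := by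
    intro n
    induction n with
    | zero =>
      have e : (Vx (fun x => x + ((0 : ℕ) : ZMod (2 ^ r))) + 1 : En r s) = 0 := by
        rw [← dbl (1 : En r s)]
        congr 1
        refine LinearMap.ext fun F => ?_
        funext x y
        change F (x + ((0 : ℕ) : ZMod (2 ^ r))) y = F x y
        rw [Nat.cast_zero, add_zero]
      rw [e]
      intro d F _
      exact zero_mem _
    | succ n ih =>
      have h1 : Low (Vx (fun x => x + (1 : ZMod (2 ^ r))) + 1 : En r s) 1 := by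
        have e : (Vx (fun x => x + (1 : ZMod (2 ^ r))) + 1 : En r s) = dx := rfl
        rw [e]
        exact R.x1
      have h2 := R.two (by norm_num) ih h1
      have e : (Vx (fun x => x + (n : ZMod (2 ^ r))) * Vx (fun x => x + (1 : ZMod (2 ^ r))) : En r s) =
          Vx (fun x => x + ((n + 1 : ℕ) : ZMod (2 ^ r))) := by
        refine LinearMap.ext fun F => ?_
        funext x y
        change F (x + (n : ZMod (2 ^ r)) + 1) y = F (x + ((n + 1 : ℕ) : ZMod (2 ^ r))) y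
        congr 1
        push_cast
        ring
      rwa [e] at h2
  have h := key u.val
  rwa [ZMod.natCast_zmod_val] at h

private theorem shy (R : Rules r s) (u : ZMod (2 ^ s)) :
    Low (Vy (fun x => x + u) + 1 : En r s) 1 := by
  have key : ∀ n : ℕ, Low (Vy (fun x => x + (n : ZMod (2 ^ s))) + 1 : En r s) 1 := by
    intro n
    induction n with
    | zero =>
      have e : (Vy (fun x => x + ((0 : ℕ) : ZMod (2 ^ s))) + 1 : En r s) = 0 := by
        rw [← dbl (1 : En r s)]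
        congr 1
        refine LinearMap.ext fun F => ?_
        funext x y
        change F x (y + ((0 : ℕ) : ZMod (2 ^ s))) = F x y
        rw [Nat.cast_zero, add_zero]
      rw [e]
      intro d F _
      exact zero_mem _
    | succ n ih =>
      have h1 : Low (Vy (fun x => x + (1 : ZMod (2 ^ s))) + 1 : En r s) 1 := by
        have e : (Vy (fun x => x + (1 : ZMod (2 ^ s))) + 1 : En r s) = dy := rfl
        rw [e]
        exact R.y1
      have h2 := R.two (by norm_num) ih h1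
      have e : (Vy (fun x => x + (n : ZMod (2 ^ s))) * Vy (fun x => x + (1 : ZMod (2 ^ s))) : En r s) =
          Vy (fun x => x + ((n + 1 : ℕ) : ZMod (2 ^ s))) := by
        refine LinearMap.ext fun F => ?_
        funext x y
        change F x (y + (n : ZMod (2 ^ s)) + 1) = F x (y + ((n + 1 : ℕ) : ZMod (2 ^ s)))
        congr 1
        push_cast
        ring
      rwa [e] at h2
  have h := key u.val
  rwa [ZMod.natCast_zmod_val] at h

/-- Shifts by multiples of four. -/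
private theorem shx4 (hSub : StSub) (R : Rules r s) (w : ℤ) :
    Low (Vx (fun x => x + ((4 * w : ℤ) : ZMod (2 ^ r))) + 1 : En r s) 4 := by
  rcases Int.even_or_odd w with ⟨v, hv⟩ | ⟨v, hv⟩
  · refine R.le _ _ _ ?_ (lowX hSub 3 (by norm_num) _ (fun _ => (v : ZMod (2 ^ r))) (Lip.const _) ?_)
    · norm_num
    · intro y
      rw [hv]
      push_cast
      ring
  · refine lowX4 hSub _ (fun _ => ((2 * v + 1 : ℤ) : ZMod (2 ^ r))) (Lip.const _) ?_ ?_
    · intro y
      rw [hv]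
      push_cast
      ring
    · intro y
      exact ⟨(v : ZMod (2 ^ r)), by push_cast; ring⟩

private theorem shy4 (hSub : StSub) (R : Rules r s) (w : ℤ) :
    Low (Vy (fun x => x + ((4 * w : ℤ) : ZMod (2 ^ s))) + 1 : En r s) 4 := by
  rcases Int.even_or_odd w with ⟨v, hv⟩ | ⟨v, hv⟩
  · refine R.le _ _ _ ?_ (lowY hSub 3 (by norm_num) _ (fun _ => (v : ZMod (2 ^ s))) (Lip.const _) ?_)
    · norm_num
    · intro y
      rw [hv]
      push_cast
      ring
  · refine lowY4 hSub _ (fun _ => ((2 * v + 1 : ℤ) : ZMod (2 ^ s))) (Lip.const _) ?_ ?_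
    · intro y
      rw [hv]
      push_cast
      ring
    · intro y
      exact ⟨(v : ZMod (2 ^ s)), by push_cast; ring⟩

/-- The function `y ↦ y / (1 + 4 z y)`. -/
private def hz {q : ℕ} (z : ℤ) (y : ZMod q) : ZMod q := y * (1 + 4 * z * y)⁻¹

private theorem hz_inv (n : ℕ) (z : ℤ) (y : ZMod (2 ^ n)) :
    (1 + 4 * (z : ZMod (2 ^ n)) * y) * (1 + 4 * (z : ZMod (2 ^ n)) * y)⁻¹ = 1 :=
  inv2 n _ (2 * z * y) (by ring)

private theorem lip_den (n : ℕ) (z : ℤ) :
    Lip (fun y : ZMod (2 ^ n) => (1 + 4 * (z : ZMod (2 ^ n)) * y)⁻¹) :=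
  Lip.inv ((Lip.const 1).add ((Lip.const (4 * (z : ZMod (2 ^ n)))).mul Lip.idm)) (hz_inv n z)

private theorem lip_t (n : ℕ) (c : ZMod (2 ^ n)) (z : ℤ) :
    Lip (fun y : ZMod (2 ^ n) => c * (y * y) * (1 + 4 * (z : ZMod (2 ^ n)) * y)⁻¹) :=
  ((Lip.const c).mul (Lip.idm.mul Lip.idm)).mul (lip_den n z)

private theorem hz_eq (n : ℕ) (z : ℤ) (y : ZMod (2 ^ n)) :
    hz z y = y + 2 ^ 2 * ((-(z : ZMod (2 ^ n))) * (y * y) * (1 + 4 * (z : ZMod (2 ^ n)) * y)⁻¹) := by
  unfold hz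
  linear_combination y * hz_inv n z y

private theorem hz_eq4 (n : ℕ) (w : ℤ) (y : ZMod (2 ^ n)) :
    hz (4 * w) y = y + 2 ^ 4 * ((-(w : ZMod (2 ^ n))) * (y * y) *
      (1 + 4 * ((4 * w : ℤ) : ZMod (2 ^ n)) * y)⁻¹) := by
  have h := hz_eq n (4 * w) y
  rw [h]
  push_cast
  ring

private theorem lowh_y (hSub : StSub) (z : ℤ) : Low (Vy (hz z) + 1 : En r s) 3 := by
  have h := lowY (r := r) (s := s) hSub 2 (by norm_num) (hz z) _ (lip_t s (-(z : ZMod (2 ^ s))) z)
    (hz_eq s z)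
  norm_num at h
  exact h

private theorem lowh_x (hSub : StSub) (z : ℤ) : Low (Vx (hz z) + 1 : En r s) 3 := by
  have h := lowX (r := r) (s := s) hSub 2 (by norm_num) (hz z) _ (lip_t r (-(z : ZMod (2 ^ r))) z)
    (hz_eq r z)
  norm_num at h
  exact h

private theorem lowh4_y (hSub : StSub) (w : ℤ) : Low (Vy (hz (4 * w)) + 1 : En r s) 15 := by
  have h := lowY (r := r) (s := s) hSub 4 (by norm_num) (hz (4 * w)) _
    (lip_t s (-(w : ZMod (2 ^ s))) (4 * w)) (hz_eq4 s w)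
  norm_num at h
  exact h

private theorem lowh4_x (hSub : StSub) (w : ℤ) : Low (Vx (hz (4 * w)) + 1 : En r s) 15 := by
  have h := lowX (r := r) (s := s) hSub 4 (by norm_num) (hz (4 * w)) _
    (lip_t r (-(w : ZMod (2 ^ r))) (4 * w)) (hz_eq4 r w)
  norm_num at h
  exact h

private theorem opA_eq (z : ℤ) : (opA z : En r s) =
    Vx (fun x => x + (z : ZMod (2 ^ r))) * Vy (hz z) := rfl

private theorem opB_eq (z : ℤ) : (opB z : En r s) =
    Vy (fun x => x + (z : ZMod (2 ^ s))) * Vx (hz z) := rfl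

private theorem lowA (hSub : StSub) (R : Rules r s) (z : ℤ) : Low (opA z + 1 : En r s) 1 := by
  rw [opA_eq]
  exact R.two (by norm_num) (shx R _) (R.le _ _ _ (by norm_num) (lowh_y hSub z))

private theorem lowB (hSub : StSub) (R : Rules r s) (z : ℤ) : Low (opB z + 1 : En r s) 1 := by
  rw [opB_eq]
  exact R.two (by norm_num) (shy R _) (R.le _ _ _ (by norm_num) (lowh_x hSub z))

private theorem lowA4 (hSub : StSub) (R : Rules r s) (z : ℤ) (hz4 : 4 ∣ z) :
    Low (opA z + 1 : En r s) 4 := by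
  obtain ⟨w, rfl⟩ := hz4
  rw [opA_eq]
  exact R.two (by norm_num) (shx4 hSub R w) (R.le _ _ _ (by norm_num) (lowh4_y hSub w))

private theorem lowB4 (hSub : StSub) (R : Rules r s) (z : ℤ) (hz4 : 4 ∣ z) :
    Low (opB z + 1 : En r s) 4 := by
  obtain ⟨w, rfl⟩ := hz4
  rw [opB_eq]
  exact R.two (by norm_num) (shy4 hSub R w) (R.le _ _ _ (by norm_num) (lowh4_x hSub w))

private theorem lowA1 (hSub : StSub) (R : Rules r s) : Low (opA 1 + 1 + dx : En r s) 3 := by
  have h0 := R.zero (O := Vx (fun x => x + ((1 : ℤ) : ZMod (2 ^ r)))) (by norm_num) (shx R _)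
  have h := R.mul _ _ _ _ h0 (lowh_y (r := r) (s := s) hSub 1)
  rw [zero_add] at h
  have e : (opA 1 + 1 + dx : En r s) =
      Vx (fun x => x + ((1 : ℤ) : ZMod (2 ^ r))) * (Vy (hz 1) + 1) := by
    refine LinearMap.ext fun F => ?_
    funext x y
    change F (x + ((1 : ℤ) : ZMod (2 ^ r))) (hz 1 y) + F x y + (F (x + 1) y + F x y) =
      F (x + ((1 : ℤ) : ZMod (2 ^ r))) (hz 1 y) + F (x + ((1 : ℤ) : ZMod (2 ^ r))) y
    rw [Int.cast_one]
    linear_combination CharTwo.add_self_eq_zero (F x y)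
  rw [e]
  exact h

private theorem lowB1 (hSub : StSub) (R : Rules r s) : Low (opB 1 + 1 + dy : En r s) 3 := by
  have h0 := R.zero (O := Vy (fun x => x + ((1 : ℤ) : ZMod (2 ^ s)))) (by norm_num) (shy R _)
  have h := R.mul _ _ _ _ h0 (lowh_x (r := r) (s := s) hSub 1)
  rw [zero_add] at h
  have e : (opB 1 + 1 + dy : En r s) =
      Vy (fun x => x + ((1 : ℤ) : ZMod (2 ^ s))) * (Vx (hz 1) + 1) := by
    refine LinearMap.ext fun F => ?_
    funext x y
    change F (hz 1 x) (y + ((1 : ℤ) : ZMod (2 ^ s))) + F x y + (F x (y + 1) + F x y) =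
      F (hz 1 x) (y + ((1 : ℤ) : ZMod (2 ^ s))) + F x (y + ((1 : ℤ) : ZMod (2 ^ s)))
    rw [Int.cast_one]
    linear_combination CharTwo.add_self_eq_zero (F x y)
  rw [e]
  exact h

/-! ### The commutator -/

/-- `u ↦ (4 - 3 u)/(21 - 16 u)`. -/
private def ph {q : ℕ} (u : ZMod q) : ZMod q := (4 - 3 * u) * (21 - 16 * u)⁻¹

private theorem ph_inv (n : ℕ) (u : ZMod (2 ^ n)) : (21 - 16 * u) * (21 - 16 * u)⁻¹ = 1 :=
  inv2 n _ (10 - 8 * u) (by ring)

/-- `(1 - 6 u + 4 u²)/(21 - 16 u)`. -/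
private def pt {q : ℕ} (u : ZMod q) : ZMod q := (1 + (-6 * u + 4 * (u * u))) * (21 - 16 * u)⁻¹

private theorem ph_eq (n : ℕ) (u : ZMod (2 ^ n)) : ph u = u + 4 * pt u := by
  unfold ph pt
  linear_combination u * ph_inv n u

private theorem lip_pt (n : ℕ) : Lip (pt : ZMod (2 ^ n) → ZMod (2 ^ n)) := by
  have h1 : Lip (fun u : ZMod (2 ^ n) => 1 + (-6 * u + 4 * (u * u))) :=
    (Lip.const 1).add (((Lip.const (-6)).mul Lip.idm).add ((Lip.const 4).mul (Lip.idm.mul Lip.idm)))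
  have h2 : Lip (fun u : ZMod (2 ^ n) => 21 + (-16) * u) :=
    (Lip.const 21).add ((Lip.const (-16)).mul Lip.idm)
  have e : (fun u : ZMod (2 ^ n) => 21 + (-16) * u) = fun u => 21 - 16 * u := by
    funext u
    ring
  rw [e] at h2
  exact h1.mul (Lip.inv h2 (ph_inv n))

private theorem pt_odd (n : ℕ) (u : ZMod (2 ^ n)) : (2 : ZMod (2 ^ n)) ∣ pt u - 1 := by
  refine ⟨(-3 * u + 2 * (u * u) - 10 + 8 * u) * (21 - 16 * u)⁻¹, ?_⟩
  unfold pt
  linear_combination ph_inv n u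

/-- `ph (h(x) + 1) = h(x + 1)`. -/
private theorem ph_comp (n : ℕ) (x : ZMod (2 ^ n)) : ph (hz 1 x + 1) = hz 1 (x + 1) := by
  have e0 := hz_inv n 1 x
  have e1 := ph_inv n (hz 1 x + 1)
  have e2 := hz_inv n 1 (x + 1)
  rw [Int.cast_one] at e0 e2
  change (4 - 3 * (hz 1 x + 1)) * (21 - 16 * (hz 1 x + 1))⁻¹ =
    (x + 1) * (1 + 4 * ((1 : ℤ) : ZMod (2 ^ n)) * (x + 1))⁻¹
  rw [Int.cast_one]
  refine frac e1 e2 ?_
  have e3 : hz 1 x = x * (1 + 4 * 1 * x)⁻¹ := by
    unfold hz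
    rw [Int.cast_one]
  rw [e3]
  linear_combination x * e0

private theorem low_comm (hSub : StSub) (R : Rules r s) :
    Low (opA 1 * opB 1 + opB 1 * opA 1 : En r s) 4 := by
  have hx : Low (Vx (fun x => hz 1 x + 1) : En r s) 0 := by
    have h := R.mul _ _ _ _ (R.zero (by norm_num) (lowh_x (r := r) (s := s) hSub 1))
      (R.zero (O := Vx (fun x => x + (1 : ZMod (2 ^ r)))) (by norm_num) (shx R 1))
    exact h
  have hy : Low (Vy (fun x => hz 1 x + 1) : En r s) 0 := by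
    have h := R.mul _ _ _ _ (R.zero (by norm_num) (lowh_y (r := r) (s := s) hSub 1))
      (R.zero (O := Vy (fun x => x + (1 : ZMod (2 ^ s)))) (by norm_num) (shy R 1))
    exact h
  have h1 : Low (Vx ph + 1 : En r s) 4 := lowX4 hSub ph pt (lip_pt r) (ph_eq r) (pt_odd r)
  have h2 : Low (Vy ph + 1 : En r s) 4 := lowY4 hSub ph pt (lip_pt s) (ph_eq s) (pt_odd s)
  have h3 := R.mul _ _ _ _ (R.mul _ _ _ _ hx hy) (R.add _ _ _ h1 h2)
  have e : (opA 1 * opB 1 + opB 1 * opA 1 : En r s) =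
      Vx (fun x => hz 1 x + 1) * Vy (fun x => hz 1 x + 1) * (Vx ph + 1 + (Vy ph + 1)) := by
    refine LinearMap.ext fun F => ?_
    funext x y
    change F (hz 1 (x + ((1 : ℤ) : ZMod (2 ^ r)))) (hz 1 y + ((1 : ℤ) : ZMod (2 ^ s))) +
        F (hz 1 x + ((1 : ℤ) : ZMod (2 ^ r))) (hz 1 (y + ((1 : ℤ) : ZMod (2 ^ s)))) =
      F (ph (hz 1 x + 1)) (hz 1 y + 1) + F (hz 1 x + 1) (hz 1 y + 1) +
        (F (hz 1 x + 1) (ph (hz 1 y + 1)) + F (hz 1 x + 1) (hz 1 y + 1))
    rw [ph_comp, ph_comp, Int.cast_one, Int.cast_one]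
    linear_combination -(CharTwo.add_self_eq_zero (F (hz 1 x + 1) (hz 1 y + 1)))
  rw [e]
  norm_num at h3
  exact h3

/-! ### Multiplications -/

private theorem lowMx (hSub : StSub) (k : ℕ) (hk : 1 ≤ k) (c e : ZMod (2 ^ r)) (hc : c = 1 + 2 ^ k * e) :
    Low (Vx (fun x => c * x) + 1 : En r s) (2 ^ k - 1) :=
  lowX hSub k hk _ (fun x => e * x) ((Lip.const e).mul Lip.idm) fun y => by
    rw [hc]
    ring

private theorem lowMy (hSub : StSub) (k : ℕ) (hk : 1 ≤ k) (c e : ZMod (2 ^ s)) (hc : c = 1 + 2 ^ k * e) :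
    Low (Vy (fun x => c * x) + 1 : En r s) (2 ^ k - 1) :=
  lowY hSub k hk _ (fun x => e * x) ((Lip.const e).mul Lip.idm) fun y => by
    rw [hc]
    ring

private theorem odd_inv (n m : ℕ) : (((2 * m + 1 : ℕ) : ZMod (2 ^ n))) * (((2 * m + 1 : ℕ) : ZMod (2 ^ n)))⁻¹ = 1 :=
  inv2 n _ (m : ZMod (2 ^ n)) (by push_cast; ring)

private theorem opD_eq (l : ℕ) : (opD l : En r s) =
    Vx (fun x => (l : ZMod (2 ^ r))⁻¹ * x) * Vy (fun y => (l : ZMod (2 ^ s)) * y) := by
  refine LinearMap.ext fun F => ?_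
  funext x y
  change F (x * (l : ZMod (2 ^ r))⁻¹) ((l : ZMod (2 ^ s)) * y) =
    F ((l : ZMod (2 ^ r))⁻¹ * x) ((l : ZMod (2 ^ s)) * y)
  rw [mul_comm x]

private theorem opE_eq (l : ℕ) : (opE l : En r s) =
    Vx (fun x => (l : ZMod (2 ^ r)) * x) * Vy (fun y => (l : ZMod (2 ^ s))⁻¹ * y) := by
  refine LinearMap.ext fun F => ?_
  funext x y
  change F ((l : ZMod (2 ^ r)) * x) (y * (l : ZMod (2 ^ s))⁻¹) =
    F ((l : ZMod (2 ^ r)) * x) ((l : ZMod (2 ^ s))⁻¹ * y)
  rw [mul_comm y]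

private theorem cinv (n m : ℕ) : (((2 * m + 1 : ℕ) : ZMod (2 ^ n)))⁻¹ =
    1 + 2 ^ 1 * (-(m : ZMod (2 ^ n)) * (((2 * m + 1 : ℕ) : ZMod (2 ^ n)))⁻¹) := by
  have h := odd_inv n m
  have e : ((2 * m + 1 : ℕ) : ZMod (2 ^ n)) = 2 * (m : ZMod (2 ^ n)) + 1 := by push_cast; ring
  rw [e] at h ⊢
  linear_combination h

private theorem lowD (hSub : StSub) (R : Rules r s) (m : ℕ) : Low (opD (2 * m + 1) + 1 : En r s) 1 := by
  rw [opD_eq]
  refine R.two (by norm_num) ?_ ?_
  · have h := lowMx (s := s) hSub 1 le_rfl _ _ (cinv r m)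
    norm_num at h ⊢
    exact h
  · have h := lowMy (r := r) hSub 1 le_rfl ((2 * m + 1 : ℕ) : ZMod (2 ^ s)) (m : ZMod (2 ^ s))
      (by push_cast; ring)
    norm_num at h ⊢
    exact h

private theorem lowE (hSub : StSub) (R : Rules r s) (m : ℕ) : Low (opE (2 * m + 1) + 1 : En r s) 1 := by
  rw [opE_eq]
  refine R.two (by norm_num) ?_ ?_
  · have h := lowMx (s := s) hSub 1 le_rfl ((2 * m + 1 : ℕ) : ZMod (2 ^ r)) (m : ZMod (2 ^ r))
      (by push_cast; ring)
    norm_num at h ⊢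
    exact h
  · have h := lowMy (r := r) hSub 1 le_rfl _ _ (cinv s m)
    norm_num at h ⊢
    exact h

private theorem sq8 (n m : ℕ) : ∃ e : ZMod (2 ^ n), ((2 * m + 1 : ℕ) : ZMod (2 ^ n)) *
    ((2 * m + 1 : ℕ) : ZMod (2 ^ n)) = 1 + 2 ^ 3 * e := by
  obtain ⟨j, hj⟩ := Nat.even_mul_succ_self m
  refine ⟨(j : ZMod (2 ^ n)), ?_⟩
  have h : ((m * (m + 1) : ℕ) : ZMod (2 ^ n)) = ((j + j : ℕ) : ZMod (2 ^ n)) := congrArg _ hj
  push_cast at h ⊢
  linear_combination 4 * h

private theorem lowDE (hSub : StSub) (R : Rules r s) (m : ℕ) :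
    Low (opD (2 * m + 1) + opE (2 * m + 1) : En r s) 7 := by
  obtain ⟨e1, he1⟩ := sq8 r m
  obtain ⟨e2, he2⟩ := sq8 s m
  have i1 := odd_inv r m
  have i2 := odd_inv s m
  set L : ZMod (2 ^ r) := ((2 * m + 1 : ℕ) : ZMod (2 ^ r)) with hL
  set L' : ZMod (2 ^ s) := ((2 * m + 1 : ℕ) : ZMod (2 ^ s)) with hL'
  have hx : Low (Vx (fun x => L⁻¹ * L⁻¹ * x) + 1 : En r s) 7 := by
    have h := lowMx (s := s) hSub 3 (by norm_num) (L⁻¹ * L⁻¹) (-e1 * (L⁻¹ * L⁻¹)) (by
      linear_combination (-(L⁻¹ * L⁻¹)) * he1 + (L * L⁻¹ + 1) * i1)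
    norm_num at h ⊢
    exact h
  have hy : Low (Vy (fun x => L' * L' * x) + 1 : En r s) 7 := by
    have h := lowMy (r := r) hSub 3 (by norm_num) (L' * L') e2 he2
    norm_num at h ⊢
    exact h
  have h0 : Low (opE (2 * m + 1) : En r s) 0 := R.zero (by norm_num) (lowE hSub R m)
  have h1 := R.mul _ _ _ _ h0 (R.two (by norm_num) hx hy)
  rw [zero_add] at h1
  have e : (opD (2 * m + 1) + opE (2 * m + 1) : En r s) = opE (2 * m + 1) *
      (Vx (fun x => L⁻¹ * L⁻¹ * x) * Vy (fun x => L' * L' * x) + 1) := by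
    rw [mul_add, mul_one]
    congr 1
    refine LinearMap.ext fun F => ?_
    funext x y
    change F (x * L⁻¹) (L' * y) = F (L⁻¹ * L⁻¹ * (L * x)) (L' * L' * (y * L'⁻¹))
    have a1 : L⁻¹ * L⁻¹ * (L * x) = x * L⁻¹ := by linear_combination (x * L⁻¹) * i1
    have a2 : L' * L' * (y * L'⁻¹) = L' * y := by linear_combination (L' * y) * i2
    rw [a1, a2]
  rw [e]
  exact h1

end main

end LowA

open LowA in
/-- LOWA. -/
theorem hLowA (hLow0 : StLow0) (_hGrp : StGrp) (hSub : StSub) : StLowA := by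
  intro r s
  have R := rules hLow0 r s
  refine ⟨fun z => ⟨lowA hSub R z, lowB hSub R z, R.zero (by norm_num) (lowA hSub R z),
    R.zero (by norm_num) (lowB hSub R z), fun h => lowA4 hSub R z h, fun h => lowB4 hSub R z h⟩,
    lowA1 hSub R, lowB1 hSub R, low_comm hSub R, ?_⟩
  rintro l ⟨m, rfl⟩
  exact ⟨lowD hSub R m, lowE hSub R m, lowDE hSub R m⟩

end Pool.Agent.Helper72.CV
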